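import Pool.Agent.H537.EG.Pos

/-!
# The Brun-Titchmarsh inequality with a constant below 2 around almost all integers, for all moduli and classes at once

Proof: in the windows of `H` consecutive terms of the progressions modulo `k` the primes are bounded by a product of a
Brun-Hooley sieve of level `H ^ ε` and Selberg's weights of level `H ^ (2 / θ)`. The moments of high order of the
remainders over the windows are bounded by the dual large sieve and an inequality of the type of Montgomery and Vaughan.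
The number of bad windows of a modulus is so small that the windows of all moduli can be treated together.
From Mathlib: `Nat.totient`: Euler's function; `[MOD k]`: congruence modulo `k`; `Set.ncard`: number of elements.
-/

set_option autoImplicit false

namespace Pool.Agent.Results.MP_26a8c3_nt.AllModuliPositions

open Finset Filter Pool.Agent.H537.EG

/-- `N(x,y;k,l)`: the number of primes `p` with `x - y < p ≤ x` and `p ≡ l (mod k)`. -/
noncomputable def N (x y : ℝ) (k l : ℕ) : ℕ :=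
  {p : ℕ | p.Prime ∧ x - y < p ∧ (p : ℝ) ≤ x ∧ p ≡ l [MOD k]}.ncard

lemma N_conv {k l : ℕ} {x y : ℝ} (hx : 0 ≤ x) : N x y k l = Pool.Agent.R502.BL.pc k ⌊x - y⌋₊ ⌊x⌋₊ l := by
  classical
  unfold N Pool.Agent.R502.BL.pc
  rw [← Set.ncard_coe_finset]
  congr 1
  ext p
  rw [Set.mem_setOf_eq, mem_coe, mem_filter, mem_Ioc, Nat.le_floor_iff hx]
  by_cases h : 0 ≤ x - y
  · rw [Nat.floor_lt h]
    tauto
  · push Not at h
    rw [Nat.floor_of_nonpos h.le]
    constructor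
    · rintro ⟨h1, h2, h3, h4⟩
      exact ⟨⟨h1.pos, h3⟩, h1, h4⟩
    · rintro ⟨⟨h1, h3⟩, h2, h4⟩
      refine ⟨h2, ?_, h3, h4⟩
      have : (0 : ℝ) < p := by exact_mod_cast h1
      linarith

/-- Let `0 < θ ≤ 2`, `κ ≥ 0` and `ε > 0`. There are `C` and `c > 0` such that for all large `X` and all but at most
`X ^ (2 κ + 1 - θ / 4 + ε)` of the integers `n ≤ X` the inequality `N(x,y;k,l) ≤ (θ + ε) y / (φ(k) log(y/k))` holds for
ALL moduli `k ≤ X ^ κ`, ALL classes `l` and ALL intervals `(x - y, x]` which contain `n` and have a length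
`k (log X) ^ C ≤ y ≤ k X ^ c`. -/
theorem result (θ κ ε : ℝ) (hθ : 0 < θ) (hθ2 : θ ≤ 2) (hκ : 0 ≤ κ) (hε : 0 < ε) :
    ∃ C c : ℝ, 0 < c ∧ ∃ X₀ : ℕ, ∀ X : ℕ, X₀ ≤ X →
      ({n : ℕ | 1 ≤ n ∧ n ≤ X ∧ ∃ k l : ℕ, 1 ≤ k ∧ (k : ℝ) ≤ (X : ℝ) ^ κ ∧ ∃ x y : ℝ, x - y < n ∧ n ≤ x ∧
        k * (Real.log X) ^ C ≤ y ∧ y ≤ k * (X : ℝ) ^ c ∧
        (θ + ε) * y / (Nat.totient k * Real.log (y / k)) < N x y k l}.ncard : ℝ) ≤
        (X : ℝ) ^ (2 * κ + 1 - θ / 4 + ε) := by
  classical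
  set ε' : ℝ := min ε (2 * ε / θ) with hε'
  have hε'0 : 0 < ε' := by positivity
  have hε'1 : ε' ≤ ε := min_le_left _ _
  have hε'2 : ε' ≤ 2 * ε / θ := min_le_right _ _
  have hA : 1 / 2 ≤ 2 / θ := by
    rw [div_le_div_iff₀ (by norm_num) hθ]
    linarith
  obtain ⟨C, c, hC, hc, h⟩ := positions (2 / θ) κ ε' hA hκ hε'0
  obtain ⟨X₀, hX₀⟩ := eventually_atTop.1 h
  refine ⟨C, c, hc, max X₀ 3, fun X hX => ?_⟩
  have hX0 : X₀ ≤ X := (le_max_left _ _).trans hX
  have hX3 : 3 ≤ X := (le_max_right _ _).trans hX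
  have hXR : (3 : ℝ) ≤ X := by exact_mod_cast hX3
  have hlog : 1 < Real.log X := by
    rw [Real.lt_log_iff_exp_lt (by linarith)]
    linarith [Real.exp_one_lt_d9]
  have e1 : 2 * κ + 1 - 1 / (2 * (2 / θ)) + ε' ≤ 2 * κ + 1 - θ / 4 + ε := by
    have : 1 / (2 * (2 / θ)) = θ / 4 := by field_simp; norm_num
    rw [this]; linarith
  have e2 : (2 + ε') / (2 / θ) ≤ θ + ε := by
    have h1 : (2 + ε') / (2 / θ) = θ + ε' * θ / 2 := by field_simp
    rw [h1]
    have h2 : ε' * θ ≤ 2 * ε / θ * θ := mul_le_mul_of_nonneg_right hε'2 hθ.le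
    have h3 : 2 * ε / θ * θ = 2 * ε := by field_simp
    linarith
  have hmain := hX₀ X hX0 ((Icc 1 X).filter (fun n => Bad (2 / θ) ε' κ C c X n)) (by
    intro n hn
    rw [mem_filter, mem_Icc] at hn
    exact ⟨hn.1.1, hn.1.2, hn.2⟩)
  refine le_trans ?_ (hmain.trans (Real.rpow_le_rpow_of_exponent_le (by linarith) e1))
  apply Pool.Agent.R502.BL.ncard_le_of_sub
  intro n hn
  obtain ⟨h1, h2, k, l, hk, hkX, x, y, hx1, hx2, hy1, hy2, hN⟩ := hn
  rw [mem_filter, mem_Icc]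
  have hx0 : 0 ≤ x := le_trans (Nat.cast_nonneg n) hx2
  have hk0 : (0 : ℝ) < k := by exact_mod_cast hk
  refine ⟨⟨h1, h2⟩, k, l, hk, hkX, x, y, hx1, hx2, hy1, hy2, ?_⟩
  rw [N_conv hx0] at hN
  refine lt_of_le_of_lt ?_ hN
  have h8 : 1 ≤ (Real.log X) ^ C := Real.one_le_rpow hlog.le (by linarith)
  have h9 : (k : ℝ) ≤ y := by nlinarith
  have hy0 : 0 ≤ y := hk0.le.trans h9
  have h10 : 0 ≤ Real.log (y / k) := Real.log_nonneg ((one_le_div hk0).2 h9)
  gcongr

end Pool.Agent.Results.MP_26a8c3_nt.AllModuliPositions
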