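import Pool.Agent.H537.EG.Cls

/-!
# The Brun-Titchmarsh inequality with a small constant, for all but a power saving of the classes

Every modulus `k`, every interval, from `y = k (log k) ^ C` on. Proof: in the windows of `H` consecutive terms of the
progressions modulo `k` the primes are bounded by a product of a Brun-Hooley sieve of level `H ^ ε` and Selberg's weights
of level `H ^ (2 / θ)`, larger than `H`. The remainders are not small for an individual class. Their moments of order
`2 m`, with `m` near `θ log k / (4 log H)`, over the `k` windows are bounded by the dual large sieve and an inequality of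
the type of Montgomery and Vaughan for products of functions of few residues.
From Mathlib: `Nat.totient`: Euler's function; `[MOD k]`: congruence modulo `k`; `Set.ncard`: number of elements.
-/

set_option autoImplicit false

namespace Pool.Agent.Results.MP_26a8c3_nt.HighMomentClasses

open Finset Filter Pool.Agent.H537.EG

/-- `N(x,y;k,l)`: the number of primes `p` with `x - y < p ≤ x` and `p ≡ l (mod k)`. -/
noncomputable def N (x y : ℝ) (k l : ℕ) : ℕ :=
  {p : ℕ | p.Prime ∧ x - y < p ∧ (p : ℝ) ≤ x ∧ p ≡ l [MOD k]}.ncard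

/-- For all `θ, ε > 0` there are `C` and `c > 0` such that, for every large modulus `k` and ALL real `x`, `y` with
`k (log k) ^ C ≤ y ≤ k ^ (1 + c)` and `y ≤ x`, the inequality `N(x,y;k,l) ≤ (θ + ε) y / (φ(k) log(y/k))` holds for all
but at most `k ^ (1 - θ / 4 + ε)` of the reduced classes `l` modulo `k`. -/
theorem result (θ ε : ℝ) (hθ : 0 < θ) (hε : 0 < ε) : ∃ C c : ℝ, 0 < c ∧ ∃ k₀ : ℕ, ∀ k : ℕ, k₀ ≤ k →
    ∀ x y : ℝ, k * (Real.log k) ^ C ≤ y → y ≤ (k : ℝ) ^ (1 + c) → y ≤ x →
      ({l : ℕ | l < k ∧ l.Coprime k ∧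
        (θ + ε) * y / (Nat.totient k * Real.log (y / k)) < N x y k l}.ncard : ℝ) ≤
        (k : ℝ) ^ (1 - θ / 4 + ε) := by
  classical
  set ε' : ℝ := min ε (2 * ε / θ) with hε'
  have hε'0 : 0 < ε' := by positivity
  have hε'1 : ε' ≤ ε := min_le_left _ _
  have hε'2 : ε' ≤ 2 * ε / θ := min_le_right _ _
  obtain ⟨C, c, hC, hc, h⟩ := classes (2 / θ) ε' (by positivity) hε'0
  obtain ⟨k₀, hk₀⟩ := eventually_atTop.1 h
  refine ⟨C, c, hc, max k₀ 3, fun k hk x y hy1 hy2 hyx => ?_⟩
  have hk0 : k₀ ≤ k := (le_max_left _ _).trans hk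
  have hk3 : 3 ≤ k := (le_max_right _ _).trans hk
  have hkR : (3 : ℝ) ≤ k := by exact_mod_cast hk3
  have hlog : 1 < Real.log k := by
    rw [Real.lt_log_iff_exp_lt (by linarith)]
    linarith [Real.exp_one_lt_d9]
  have hy0 : 0 ≤ y := le_trans (mul_nonneg (Nat.cast_nonneg k) (Real.rpow_nonneg (by linarith) _)) hy1
  have hmain := hk₀ k hk0 x y hy1 hy2 hyx
  have e1 : 1 - 1 / (2 * (2 / θ)) + ε' ≤ 1 - θ / 4 + ε := by
    have : 1 / (2 * (2 / θ)) = θ / 4 := by field_simp; norm_num
    rw [this]; linarith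
  have e2 : (2 + ε') / (2 / θ) ≤ θ + ε := by
    have h1 : (2 + ε') / (2 / θ) = θ + ε' * θ / 2 := by field_simp
    rw [h1]
    have h2 : ε' * θ ≤ 2 * ε / θ * θ := mul_le_mul_of_nonneg_right hε'2 hθ.le
    have h3 : 2 * ε / θ * θ = 2 * ε := by field_simp
    linarith
  refine le_trans ?_ (hmain.trans (Real.rpow_le_rpow_of_exponent_le (by linarith) e1))
  apply Pool.Agent.R502.BL.ncard_le_of_sub
  intro l hl
  obtain ⟨h1, _, h3⟩ := hl
  rw [N, Pool.Agent.R502.BL.N_eq hyx hy0] at h3
  rw [mem_filter, mem_range]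
  refine ⟨h1, lt_of_le_of_lt ?_ h3⟩
  -- the sign of the logarithm
  by_cases hs : 0 ≤ Real.log (y / k)
  · have h4 : 0 ≤ (Nat.totient k : ℝ) * Real.log (y / k) := by positivity
    gcongr
  · push Not at hs
    exfalso
    -- then `y < k`
    have h5 : y / k < 1 := by
      by_contra h6
      push Not at h6
      exact absurd (Real.log_nonneg h6) (not_le.2 hs)
    have h7 : y < k := by
      rwa [div_lt_one (by linarith)] at h5
    have h8 : 1 ≤ (Real.log k) ^ C := Real.one_le_rpow hlog.le (by linarith)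
    nlinarith

end Pool.Agent.Results.MP_26a8c3_nt.HighMomentClasses
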