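import Mathlib
import Pool.Agent.H482.DS.Monk
import Pool.Agent.H482.DS.Gsuk
import Pool.Agent.H482.DI.Cls

/-!
# The Brun–Titchmarsh inequality for moduli below the square root of the length of the interval

For every interval `(x - y, x]` and all but boundedly many primes `q ≤ y ^ (1 / 2 - δ)` all but `ε q`
classes modulo `q` contain the average number of primes of the interval, up to `ε y / (q log y)`.  So if
`q ≥ y ^ κ`, the constant `c` in the inequality for the number of all primes of the interval (`c = 2`, by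
Montgomery and Vaughan) is replaced by `c (1 - κ) + ε` in the Brun–Titchmarsh inequality for these classes.
-/

set_option autoImplicit false

namespace Pool.Agent.Results.MP_26a8c3_nt.ModuliBelowSquareRoot

open Finset

/-- The number of primes `p` with `x - y < p ≤ x` and `p ≡ l (mod k)`. -/
def N (x y k l : ℕ) : ℕ := ((Ioc (x - y) x).filter (fun p => p.Prime ∧ p ≡ l [MOD k])).card

/-- **Main theorem.** -/
theorem result (ε δ : ℝ) (hε : 0 < ε) (hδ : 0 < δ) : ∃ M : ℕ, ∀ x y : ℕ, 2 ≤ y → y ≤ x →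
    ∃ S : Finset ℕ, S.card ≤ M ∧ ∀ q : ℕ, q.Prime → (q : ℝ) ≤ (y : ℝ) ^ (1 / 2 - δ) → q ∉ S →
      ∃ L ⊆ range q, (L.card : ℝ) ≤ ε * q ∧ ∀ l ∈ range q, l ∉ L →
        |(N x y q l : ℝ) - (N x y 1 0 : ℝ) / q| ≤ ε * (y / (q * Real.log y)) ∧
        ∀ κ c : ℝ, 0 ≤ κ → (y : ℝ) ^ κ ≤ q → 0 ≤ c → (N x y 1 0 : ℝ) ≤ c * (y / Real.log y) →
          (N x y q l : ℝ) ≤
            (c * (1 - κ) + ε) * (y / (Nat.totient q * Real.log ((y : ℝ) / q))) := by
  obtain ⟨M, h⟩ := Pool.Agent.H482.DI.almost Pool.Agent.H482.DS.monk Pool.Agent.H482.DS.gsuk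
    ε δ hε hδ
  refine ⟨M, fun x y hy hyx => ?_⟩
  obtain ⟨S, hS, h1⟩ := h x y hy hyx
  refine ⟨S, hS, fun q hq hqy hqS => ?_⟩
  obtain ⟨L, hL, hLc, h2⟩ := h1 q hq hqy hqS
  refine ⟨L, hL, hLc, fun l hl hlL => ?_⟩
  have h3 : |(N x y q l : ℝ) - (N x y 1 0 : ℝ) / q| ≤ ε * (y / (q * Real.log y)) := h2 l hl hlL
  refine ⟨h3, fun κ c hκ hκq hc hN => ?_⟩
  have hy1 : (1 : ℝ) < y := by exact_mod_cast (by omega : 1 < y)
  have hy0 : (0 : ℝ) < y := by linarith
  have hq0 : (0 : ℝ) < q := by exact_mod_cast hq.pos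
  have hly : 0 < Real.log y := Real.log_pos hy1
  have hqy' : (q : ℝ) < y := by
    refine lt_of_le_of_lt hqy ?_
    calc (y : ℝ) ^ (1 / 2 - δ) < (y : ℝ) ^ (1 : ℝ) :=
          Real.rpow_lt_rpow_of_exponent_lt hy1 (by linarith)
      _ = y := Real.rpow_one _
  have hlq : 0 < Real.log ((y : ℝ) / q) := Real.log_pos (by rw [lt_div_iff₀ hq0]; linarith)
  have hlog : Real.log ((y : ℝ) / q) ≤ (1 - κ) * Real.log y := by
    rw [Real.log_div hy0.ne' hq0.ne']
    have h4 := Real.log_le_log (by positivity) hκq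
    rw [Real.log_rpow hy0] at h4
    linarith
  have hκ1 : 0 < 1 - κ := by
    by_contra hcon
    push Not at hcon
    have : (1 - κ) * Real.log y ≤ 0 := mul_nonpos_of_nonpos_of_nonneg hcon hly.le
    linarith
  have hφ0 : (0 : ℝ) < Nat.totient q := by exact_mod_cast Nat.totient_pos.2 hq.pos
  have hφq : (Nat.totient q : ℝ) ≤ q := by exact_mod_cast Nat.totient_le q
  have h5 : (N x y q l : ℝ) ≤ (c + ε) * (y / (q * Real.log y)) := by
    have h6 := (abs_le.1 h3).2
    have h7 : (N x y 1 0 : ℝ) / q ≤ c * (y / (q * Real.log y)) := by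
      rw [div_le_iff₀ hq0]
      refine hN.trans (le_of_eq ?_)
      field_simp
    linarith
  have h8 : (y : ℝ) / (q * Real.log y) ≤
      (1 - κ) * (y / (Nat.totient q * Real.log ((y : ℝ) / q))) := by
    have e1 : (1 - κ) * ((y : ℝ) / (Nat.totient q * Real.log ((y : ℝ) / q))) =
        ((1 - κ) * y) / (Nat.totient q * Real.log ((y : ℝ) / q)) := by ring
    rw [e1, div_le_div_iff₀ (by positivity) (by positivity)]
    calc (y : ℝ) * (Nat.totient q * Real.log ((y : ℝ) / q))
        ≤ y * (q * ((1 - κ) * Real.log y)) := by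
          apply mul_le_mul_of_nonneg_left _ hy0.le
          exact mul_le_mul hφq hlog hlq.le hq0.le
      _ = (1 - κ) * y * (q * Real.log y) := by ring
  have h9 : 0 ≤ (y : ℝ) / (Nat.totient q * Real.log ((y : ℝ) / q)) := by positivity
  calc (N x y q l : ℝ) ≤ (c + ε) * (y / (q * Real.log y)) := h5
    _ ≤ (c + ε) * ((1 - κ) * (y / (Nat.totient q * Real.log ((y : ℝ) / q)))) :=
        mul_le_mul_of_nonneg_left h8 (by linarith)
    _ = (c * (1 - κ) + ε * (1 - κ)) * (y / (Nat.totient q * Real.log ((y : ℝ) / q))) := by ring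
    _ ≤ (c * (1 - κ) + ε) * (y / (Nat.totient q * Real.log ((y : ℝ) / q))) := by
        apply mul_le_mul_of_nonneg_right _ h9
        nlinarith

end Pool.Agent.Results.MP_26a8c3_nt.ModuliBelowSquareRoot
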